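import Mathlib

set_option autoImplicit false

universe u

namespace Pool.Agent.Results.MP_019b27_al.NoCompletion

/-- Lattice terms in the variables `x₀, x₁, x₂, …`. -/
inductive LTerm : Type
  | var : ℕ → LTerm
  | join : LTerm → LTerm → LTerm
  | meet : LTerm → LTerm → LTerm

/-- The value of a lattice term under an assignment. -/
def LTerm.eval {α : Type*} [Lattice α] (v : ℕ → α) : LTerm → α
  | .var n => v n
  | .join s t => s.eval v ⊔ t.eval v
  | .meet s t => s.eval v ⊓ t.eval v

/-- A quasi-identity: finitely many premises `s = t` and one conclusion `s = t`. -/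
structure QuasiIdentity where
  premises : List (LTerm × LTerm)
  conclusion : LTerm × LTerm

/-- The quasi-identity `q` holds in the lattice `α`. -/
def QuasiIdentity.HoldsIn (q : QuasiIdentity) (α : Type*) [Lattice α] : Prop :=
  ∀ v : ℕ → α, (∀ e ∈ q.premises, e.1.eval v = e.2.eval v) →
    q.conclusion.1.eval v = q.conclusion.2.eval v

/-- `K` belongs to the quasivariety generated by `L`. -/
def InQuasivariety (L : Type*) [Lattice L] (K : Type*) [Lattice K] : Prop :=
  ∀ q : QuasiIdentity, q.HoldsIn L → q.HoldsIn K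

/-! ### The quasi-identity -/

/-- If `x, z` are perspective (axis `a`), `z, y` are perspective (axis `b`) and `x ≤ y` then
`x = y`. The variables are `x = x₀`, `y = x₁`, `z = x₂`, `a = x₃`, `b = x₄`. -/
def phi : QuasiIdentity where
  premises :=
    [(.join (.var 0) (.var 3), .join (.var 2) (.var 3)),
     (.meet (.var 0) (.var 3), .meet (.var 2) (.var 3)),
     (.join (.var 2) (.var 4), .join (.var 1) (.var 4)),
     (.meet (.var 2) (.var 4), .meet (.var 1) (.var 4)),
     (.join (.var 0) (.var 1), .var 1)]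
  conclusion := (.var 0, .var 1)

theorem phi_holds_iff (α : Type*) [Lattice α] : phi.HoldsIn α ↔
    ∀ x y z a b : α, x ⊔ a = z ⊔ a → x ⊓ a = z ⊓ a → z ⊔ b = y ⊔ b → z ⊓ b = y ⊓ b →
      x ≤ y → x = y := by
  constructor
  · intro h x y z a b h1 h2 h3 h4 h5
    have := h (fun n => if n = 0 then x else if n = 1 then y else if n = 2 then z else
      if n = 3 then a else b)
    simp [phi, LTerm.eval, h1, h2, h3, h4, h5] at this
    exact this
  · intro h v hv
    simp only [phi, List.mem_cons, List.not_mem_nil, or_false, forall_eq_or_imp, forall_eq,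
      LTerm.eval] at hv ⊢
    obtain ⟨h1, h2, h3, h4, h5⟩ := hv
    exact h _ _ _ _ _ h1 h2 h3 h4 (sup_eq_right.1 h5)

/-! ### The lattice -/

/-- The group `(ℤ/2)^ℕ`. -/
abbrev V : Type := ℕ → ZMod 2

theorem card_persp {x z a : AddSubgroup V} (h1 : x ⊔ a = z ⊔ a) (h2 : x ⊓ a = z ⊓ a) :
    Nat.card x = Nat.card z := by
  have key : ∀ w : AddSubgroup V, Nat.card w = Nat.card ↥(w ⊓ a) * a.relIndex (w ⊔ a) := by
    intro w
    have h := AddSubgroup.relIndex_mul_relIndex ⊥ (w ⊓ a) w bot_le inf_le_left
    rw [AddSubgroup.relIndex_bot_left, AddSubgroup.relIndex_bot_left,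
      AddSubgroup.inf_relIndex_left] at h
    rw [AddSubgroup.relIndex_sup_right, ← h]
  rw [key x, key z, h1, h2]

theorem index_persp {x z a : AddSubgroup V} (h1 : x ⊔ a = z ⊔ a) (h2 : x ⊓ a = z ⊓ a) :
    x.index = z.index := by
  have key : ∀ w : AddSubgroup V, w.index = (w ⊓ a).relIndex a * (w ⊔ a).index := by
    intro w
    have h := AddSubgroup.relIndex_mul_index (H := w) (K := w ⊔ a) le_sup_left
    rw [AddSubgroup.relIndex_sup_left] at h
    rw [AddSubgroup.inf_relIndex_right, h]
  rw [key x, key z, h1, h2]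

theorem index_eq {x y : AddSubgroup V} (hxy : x ≤ y) (h : x.index = y.index)
    (h0 : y.index ≠ 0) : x = y := by
  have h1 := AddSubgroup.relIndex_mul_index hxy
  rw [h] at h1
  have h2 : x.relIndex y = 1 := by
    have := Nat.eq_of_mul_eq_mul_right (Nat.pos_of_ne_zero h0) (h1.trans (one_mul _).symm)
    exact this
  exact le_antisymm hxy (AddSubgroup.relIndex_eq_one.1 h2)

theorem card_eq {x y : AddSubgroup V} (hxy : x ≤ y) (h : Nat.card x = Nat.card y)
    (h0 : Nat.card x ≠ 0) : x = y := by
  have h1 := AddSubgroup.relIndex_mul_relIndex ⊥ x y bot_le hxy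
  rw [AddSubgroup.relIndex_bot_left, AddSubgroup.relIndex_bot_left, ← h] at h1
  have h2 : x.relIndex y = 1 := by
    have := Nat.eq_of_mul_eq_mul_left (Nat.pos_of_ne_zero h0) (h1.trans (mul_one _).symm)
    exact this
  exact le_antisymm hxy (AddSubgroup.relIndex_eq_one.1 h2)

/-- The lattice of all subgroups of `(ℤ/2)^ℕ` that are finite or have finite index. -/
def L : Sublattice (AddSubgroup V) where
  carrier := {W | Nat.card W ≠ 0 ∨ W.index ≠ 0}
  supClosed' := by
    rintro a ha b hb
    rcases ha with ha | ha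
    · rcases hb with hb | hb
      · left
        have h1 := AddSubgroup.relIndex_mul_relIndex ⊥ a (a ⊔ b) bot_le le_sup_left
        rw [AddSubgroup.relIndex_bot_left, AddSubgroup.relIndex_bot_left,
          AddSubgroup.relIndex_sup_left] at h1
        rw [← h1]
        refine Nat.mul_ne_zero ha ?_
        intro h0
        have h2 := AddSubgroup.relIndex_mul_relIndex ⊥ (a ⊓ b) b bot_le inf_le_right
        rw [AddSubgroup.inf_relIndex_right, h0, mul_zero, AddSubgroup.relIndex_bot_left] at h2
        exact hb h2.symm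
      · right
        intro h0
        have h1 := AddSubgroup.relIndex_mul_index (H := b) (K := a ⊔ b) le_sup_right
        rw [h0, mul_zero] at h1
        exact hb h1.symm
    · right
      intro h0
      have h1 := AddSubgroup.relIndex_mul_index (H := a) (K := a ⊔ b) le_sup_left
      rw [h0, mul_zero] at h1
      exact ha h1.symm
  infClosed' := by
    rintro a ha b hb
    have hfin : ∀ c d : AddSubgroup V, c ≤ d → Nat.card d ≠ 0 → Nat.card c ≠ 0 := by
      intro c d hcd hd h0
      have h1 := AddSubgroup.relIndex_mul_relIndex ⊥ c d bot_le hcd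
      rw [AddSubgroup.relIndex_bot_left, AddSubgroup.relIndex_bot_left, h0, zero_mul] at h1
      exact hd h1.symm
    rcases ha with ha | ha
    · exact Or.inl (hfin _ _ inf_le_left ha)
    · rcases hb with hb | hb
      · exact Or.inl (hfin _ _ inf_le_right hb)
      · right
        exact AddSubgroup.index_inf_ne_zero ha hb

instance : IsModularLattice L where
  sup_inf_le_assoc_of_le {x} y {z} h := by
    have := IsModularLattice.sup_inf_le_assoc_of_le (α := AddSubgroup V) (y : AddSubgroup V)
      (show (x : AddSubgroup V) ≤ z from h)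
    exact this

theorem L_phi : phi.HoldsIn L := by
  rw [phi_holds_iff]
  intro x y z a b h1 h2 h3 h4 h5
  have e1 : (x : AddSubgroup V) ⊔ a = z ⊔ a := congrArg Subtype.val h1
  have e2 : (x : AddSubgroup V) ⊓ a = z ⊓ a := congrArg Subtype.val h2
  have e3 : (z : AddSubgroup V) ⊔ b = y ⊔ b := congrArg Subtype.val h3
  have e4 : (z : AddSubgroup V) ⊓ b = y ⊓ b := congrArg Subtype.val h4
  have e5 : (x : AddSubgroup V) ≤ y := h5
  have hc : Nat.card (x : AddSubgroup V) = Nat.card (y : AddSubgroup V) :=
    (card_persp e1 e2).trans (card_persp e3 e4)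
  have hi : (x : AddSubgroup V).index = (y : AddSubgroup V).index :=
    (index_persp e1 e2).trans (index_persp e3 e4)
  apply Subtype.ext
  rcases x.2 with h | h
  · exact card_eq e5 hc h
  · exact index_eq e5 hi (hi ▸ h)

/-! ### Special elements -/

/-- Basis vector. -/
def e (i : ℕ) : V := Pi.single i 1

/-- The subgroup of the sequences vanishing before `n`. -/
def X (n : ℕ) : AddSubgroup V where
  carrier := {w | ∀ j < n, w j = 0}
  zero_mem' := fun j _ => rfl
  add_mem' := fun {a b} ha hb j hj => by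
    show a j + b j = 0
    rw [ha j hj, hb j hj, add_zero]
  neg_mem' := fun {a} ha j hj => by
    show - a j = 0
    rw [ha j hj, neg_zero]

theorem X_index (n : ℕ) : (X n).index ≠ 0 := by
  let f : V →+ (Fin n → ZMod 2) :=
    { toFun := fun w i => w i, map_zero' := rfl, map_add' := fun _ _ => rfl }
  have hf : f.ker = X n := by
    ext w
    rw [AddMonoidHom.mem_ker]
    constructor
    · intro h j hj
      exact congrFun h ⟨j, hj⟩
    · intro h
      funext i
      exact h i i.2
  rw [← hf]
  exact (AddSubgroup.finiteIndex_ker f).index_ne_zero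

theorem index_of_le {A B : AddSubgroup V} (h : A ≤ B) (hA : A.index ≠ 0) : B.index ≠ 0 := by
  intro h0
  have h1 := AddSubgroup.relIndex_mul_index h
  rw [h0, mul_zero] at h1
  exact hA h1.symm

theorem zmultiples_card (v : V) : Nat.card (AddSubgroup.zmultiples v) ≠ 0 := by
  rw [Nat.card_zmultiples]
  have h : (2 : ℕ) • v = 0 := by
    funext i
    show (2 : ℕ) • v i = 0
    rw [nsmul_eq_mul]
    have : ((2 : ℕ) : ZMod 2) = 0 := by decide
    rw [this, zero_mul]
  have := addOrderOf_dvd_of_nsmul_eq_zero h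
  intro h0
  rw [h0] at this
  simp at this

/-- `X n` as an element of `L`. -/
def XL (n : ℕ) : L := ⟨X n, Or.inr (X_index n)⟩

/-- The subgroup generated by `v`, as an element of `L`. -/
def gen (v : V) : L := ⟨AddSubgroup.zmultiples v, Or.inl (zmultiples_card v)⟩

theorem gen_le {v : V} {W : L} (h : v ∈ (W : AddSubgroup V)) : gen v ≤ W :=
  show AddSubgroup.zmultiples v ≤ (W : AddSubgroup V) from
    (AddSubgroup.zmultiples_le_of_mem h)

theorem mem_gen (v : V) : v ∈ ((gen v : L) : AddSubgroup V) := AddSubgroup.mem_zmultiples v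

/-- The subgroup cut out by a family of additive functionals. -/
def cut (s : Set (V →+ ZMod 2)) : AddSubgroup V where
  carrier := {w | ∀ φ ∈ s, φ w = 0}
  zero_mem' := fun φ _ => map_zero φ
  add_mem' := fun {a b} ha hb φ hφ => by rw [map_add, ha φ hφ, hb φ hφ, add_zero]
  neg_mem' := fun {a} ha φ hφ => by rw [map_neg, ha φ hφ, neg_zero]

/-- The coordinate functional. -/
def co (i : ℕ) : V →+ ZMod 2 where
  toFun := fun w => w i
  map_zero' := rfl
  map_add' := fun _ _ => rfl

/-- The sum of two coordinates. -/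
def co2 (i j : ℕ) : V →+ ZMod 2 where
  toFun := fun w => w i + w j
  map_zero' := by show (0 : ZMod 2) + 0 = 0; rw [add_zero]
  map_add' := fun a b => by
    show (a i + b i) + (a j + b j) = (a i + a j) + (b i + b j)
    ring

theorem cut_index (s : Set (V →+ ZMod 2)) (M : ℕ) (h : ∀ φ ∈ s, ∀ w ∈ X M, φ w = 0) :
    (cut s).index ≠ 0 :=
  index_of_le (A := X M) (fun w hw φ hφ => h φ hφ w hw) (X_index M)

section
variable {K : Type u} [CompleteLattice K] (f : LatticeHom L K)

/-- The infimum of the images of the `X n`. -/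
noncomputable def m : K := ⨅ n, f (XL n)

theorem inf_eq_m (g h : ℕ → L)
    (H : ∀ N, ∃ M, ∃ s t : Set (V →+ ZMod 2), (∀ φ ∈ s, ∀ w ∈ X M, φ w = 0) ∧
      (∀ φ ∈ t, ∀ w ∈ X M, φ w = 0) ∧ (∀ n, (g n : AddSubgroup V) ≤ cut s) ∧
      (∀ n, (h n : AddSubgroup V) ≤ cut t) ∧ cut s ⊓ cut t ≤ X N) :
    (m f ⊔ ⨆ n, f (g n)) ⊓ (m f ⊔ ⨆ n, f (h n)) = m f := by
  have mono : Monotone f := OrderHomClass.mono f
  apply le_antisymm
  · refine le_iInf fun N => ?_
    obtain ⟨M, s, t, hs, ht, h1, h2, h3⟩ := H N
    let S : L := ⟨cut s, Or.inr (cut_index s M hs)⟩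
    let T : L := ⟨cut t, Or.inr (cut_index t M ht)⟩
    have hS : m f ⊔ ⨆ n, f (g n) ≤ f S :=
      sup_le ((iInf_le _ M).trans (mono (show X M ≤ cut s from fun w hw φ hφ => hs φ hφ w hw)))
        (iSup_le fun n => mono (h1 n))
    have hT : m f ⊔ ⨆ n, f (h n) ≤ f T :=
      sup_le ((iInf_le _ M).trans (mono (show X M ≤ cut t from fun w hw φ hφ => ht φ hφ w hw)))
        (iSup_le fun n => mono (h2 n))
    refine (inf_le_inf hS hT).trans ?_
    rw [← map_inf]
    exact mono h3
  · exact le_inf le_sup_left le_sup_left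

theorem sup_eq_sup (g h c : ℕ → L) (h1 : ∀ n, g n ≤ h n ⊔ c n) (h2 : ∀ n, h n ≤ g n ⊔ c n) :
    (m f ⊔ ⨆ n, f (g n)) ⊔ (m f ⊔ ⨆ n, f (c n)) = (m f ⊔ ⨆ n, f (h n)) ⊔ (m f ⊔ ⨆ n, f (c n)) := by
  have mono : Monotone f := OrderHomClass.mono f
  have key : ∀ g h : ℕ → L, (∀ n, g n ≤ h n ⊔ c n) →
      (m f ⊔ ⨆ n, f (g n)) ⊔ (m f ⊔ ⨆ n, f (c n)) ≤
        (m f ⊔ ⨆ n, f (h n)) ⊔ (m f ⊔ ⨆ n, f (c n)) := by
    intro g h h1
    refine sup_le (sup_le (le_sup_of_le_left le_sup_left) (iSup_le fun n => ?_)) le_sup_right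
    refine (mono (h1 n)).trans ?_
    rw [map_sup]
    exact sup_le_sup (le_sup_of_le_right (le_iSup (fun n => f (h n)) n))
      (le_sup_of_le_right (le_iSup (fun n => f (c n)) n))
  exact le_antisymm (key g h h1) (key h g h2)

end

theorem e_apply (i j : ℕ) : e i j = if j = i then 1 else 0 := by
  unfold e
  rw [Pi.single_apply]

theorem zmod_add_self (a : ZMod 2) : a + a = 0 := by
  revert a; decide

theorem zmod_eq_of_add (a b : ZMod 2) (h : a + b = 0) (ha : b = 0) : a = 0 := by
  rw [ha, add_zero] at h; exact h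

theorem no_embedding {K : Type u} [CompleteLattice K] (hK : InQuasivariety L K)
    (f : LatticeHom L K) (hf : Function.Injective f) : False := by
  have mono : Monotone f := OrderHomClass.mono f
  have hphi := (phi_holds_iff K).1 (hK phi L_phi)
  let ga : ℕ → L := fun n => gen (e (2 * n))
  let gb : ℕ → L := fun n => gen (e (2 * n + 1))
  let ga' : ℕ → L := fun n => gen (e (2 * n + 2))
  let gc : ℕ → L := fun n => gen (e (2 * n) + e (2 * n + 1))
  let gd : ℕ → L := fun n => gen (e (2 * n + 1) + e (2 * n + 2))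
  have hgen : ∀ (g : ℕ → V) (s : Set (V →+ ZMod 2)), (∀ n, ∀ φ ∈ s, φ (g n) = 0) →
      ∀ n, ((gen (g n) : L) : AddSubgroup V) ≤ cut s := by
    intro g s h n
    exact AddSubgroup.zmultiples_le_of_mem (h n)
  have triple : ∀ u v : V, gen u ≤ gen v ⊔ gen (u + v) := by
    intro u v
    apply gen_le
    have h1 : v ∈ ((gen v ⊔ gen (u + v) : L) : AddSubgroup V) :=
      (show ((gen v : L) : AddSubgroup V) ≤ _ from
        (le_sup_left : gen v ≤ gen v ⊔ gen (u + v))) (mem_gen v)
    have h2 : u + v ∈ ((gen v ⊔ gen (u + v) : L) : AddSubgroup V) :=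
      (show ((gen (u + v) : L) : AddSubgroup V) ≤ _ from
        (le_sup_right : gen (u + v) ≤ gen v ⊔ gen (u + v))) (mem_gen _)
    have := AddSubgroup.sub_mem _ h2 h1
    rwa [add_sub_cancel_right] at this
  have triple' : ∀ u v : V, gen v ≤ gen u ⊔ gen (u + v) := by
    intro u v
    have := triple v u
    rwa [add_comm v u] at this
  have hxy := hphi (m f ⊔ ⨆ n, f (ga' n)) (m f ⊔ ⨆ n, f (ga n)) (m f ⊔ ⨆ n, f (gb n))
    (m f ⊔ ⨆ n, f (gd n)) (m f ⊔ ⨆ n, f (gc n))
    (sup_eq_sup f ga' gb gd (fun n => triple' _ _) (fun n => triple _ _))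
    ?_
    (sup_eq_sup f gb ga gc (fun n => triple' _ _) (fun n => triple _ _))
    ?_ ?_
  · -- contradiction
    have h1 : f (ga 0) ≤ m f ⊔ ⨆ n, f (ga n) := le_sup_of_le_right (le_iSup (fun n => f (ga n)) 0)
    rw [← hxy] at h1
    have h2 : m f ⊔ ⨆ n, f (ga' n) ≤ f (XL 1) := by
      refine sup_le (iInf_le _ 1) (iSup_le fun n => mono (gen_le ?_))
      intro j hj
      rw [e_apply, if_neg (by omega)]
    have h3 : f (ga 0 ⊓ XL 1) = f (ga 0) := by
      rw [map_inf]
      exact inf_eq_left.2 (h1.trans h2)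
    have h4 := inf_eq_left.1 (hf h3)
    have h5 : e 0 ∈ X 1 := (show ((ga 0 : L) : AddSubgroup V) ≤ X 1 from h4) (mem_gen _)
    have h6 := h5 0 (by norm_num)
    rw [e_apply, if_pos rfl] at h6
    exact one_ne_zero h6
  · -- x, z, axis d
    rw [inf_eq_m f ga' gd, inf_eq_m f gb gd]
    · intro N
      refine ⟨2 * N + 1, {φ | ∃ k ≤ N, φ = co (2 * k)},
        {φ | φ = co 0 ∨ ∃ k < N, φ = co2 (2 * k + 1) (2 * k + 2)}, ?_, ?_, ?_, ?_, ?_⟩
      · rintro φ ⟨k, hk, rfl⟩ w hw
        exact hw _ (by omega)
      · rintro φ (rfl | ⟨k, hk, rfl⟩) w hw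
        · exact hw _ (by omega)
        · show w _ + w _ = 0
          rw [hw _ (by omega), hw _ (by omega), add_zero]
      · apply hgen
        rintro n φ ⟨k, hk, rfl⟩
        show e (2 * n + 1) (2 * k) = 0
        rw [e_apply, if_neg (by omega)]
      · apply hgen
        rintro n φ (rfl | ⟨k, hk, rfl⟩)
        · show e (2 * n + 1) 0 + e (2 * n + 2) 0 = 0
          rw [e_apply, e_apply, if_neg (by omega), if_neg (by omega), add_zero]
        · show (e (2 * n + 1) (2 * k + 1) + e (2 * n + 2) (2 * k + 1)) +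
            (e (2 * n + 1) (2 * k + 2) + e (2 * n + 2) (2 * k + 2)) = 0
          simp only [e_apply]
          by_cases hnk : k = n
          · subst hnk
            rw [if_pos rfl, if_neg (by omega), if_neg (by omega), if_pos rfl, add_zero, zero_add]
            exact zmod_add_self 1
          · rw [if_neg (by omega), if_neg (by omega), if_neg (by omega), if_neg (by omega)]
            simp
      · rintro w ⟨h1, h2⟩ j hj
        rcases Nat.even_or_odd' j with ⟨i, rfl | rfl⟩
        · exact h1 _ ⟨i, by omega, rfl⟩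
        · exact zmod_eq_of_add _ _ (h2 _ (Or.inr ⟨i, by omega, rfl⟩))
            (h1 (co (2 * i + 2)) ⟨i + 1, by omega, rfl⟩)
    · intro N
      refine ⟨2 * N + 1, {φ | φ = co 0 ∨ ∃ k < N, φ = co (2 * k + 1)},
        {φ | φ = co 0 ∨ ∃ k < N, φ = co2 (2 * k + 1) (2 * k + 2)}, ?_, ?_, ?_, ?_, ?_⟩
      · rintro φ (rfl | ⟨k, hk, rfl⟩) w hw
        · exact hw _ (by omega)
        · exact hw _ (by omega)
      · rintro φ (rfl | ⟨k, hk, rfl⟩) w hw
        · exact hw _ (by omega)
        · show w _ + w _ = 0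
          rw [hw _ (by omega), hw _ (by omega), add_zero]
      · apply hgen
        rintro n φ (rfl | ⟨k, hk, rfl⟩)
        · show e (2 * n + 2) 0 = 0
          rw [e_apply, if_neg (by omega)]
        · show e (2 * n + 2) (2 * k + 1) = 0
          rw [e_apply, if_neg (by omega)]
      · apply hgen
        rintro n φ (rfl | ⟨k, hk, rfl⟩)
        · show e (2 * n + 1) 0 + e (2 * n + 2) 0 = 0
          rw [e_apply, e_apply, if_neg (by omega), if_neg (by omega), add_zero]
        · show (e (2 * n + 1) (2 * k + 1) + e (2 * n + 2) (2 * k + 1)) +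
            (e (2 * n + 1) (2 * k + 2) + e (2 * n + 2) (2 * k + 2)) = 0
          simp only [e_apply]
          by_cases hnk : k = n
          · subst hnk
            rw [if_pos rfl, if_neg (by omega), if_neg (by omega), if_pos rfl, add_zero, zero_add]
            exact zmod_add_self 1
          · rw [if_neg (by omega), if_neg (by omega), if_neg (by omega), if_neg (by omega)]
            simp
      · rintro w ⟨h1, h2⟩ j hj
        rcases Nat.even_or_odd' j with ⟨i, rfl | rfl⟩
        · rcases i with _ | i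
          · exact h1 _ (Or.inl rfl)
          · have h3 := h2 _ (Or.inr ⟨i, by omega, rfl⟩)
            have h4 := h1 (co (2 * i + 1)) (Or.inr ⟨i, by omega, rfl⟩)
            refine zmod_eq_of_add _ _ ?_ h4
            have : w (2 * i + 1) + w (2 * i + 2) = 0 := h3
            show w (2 * (i + 1)) + w (2 * i + 1) = 0
            rw [add_comm]
            exact this
        · exact h1 _ (Or.inr ⟨i, by omega, rfl⟩)
  · -- z, y, axis c
    have hc : ∀ (n : ℕ) (N : ℕ) (φ : V →+ ZMod 2), (∃ k < N, φ = co2 (2 * k) (2 * k + 1)) →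
        φ (e (2 * n) + e (2 * n + 1)) = 0 := by
      rintro n N φ ⟨k, hk, rfl⟩
      show (e (2 * n) (2 * k) + e (2 * n + 1) (2 * k)) +
        (e (2 * n) (2 * k + 1) + e (2 * n + 1) (2 * k + 1)) = 0
      simp only [e_apply]
      by_cases hnk : k = n
      · subst hnk
        rw [if_pos rfl, if_neg (by omega), if_neg (by omega), if_pos rfl, add_zero, zero_add]
        exact zmod_add_self 1
      · rw [if_neg (by omega), if_neg (by omega), if_neg (by omega), if_neg (by omega)]
        simp
    rw [inf_eq_m f gb gc, inf_eq_m f ga gc]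
    · intro N
      refine ⟨2 * N, {φ | ∃ k < N, φ = co (2 * k + 1)},
        {φ | ∃ k < N, φ = co2 (2 * k) (2 * k + 1)}, ?_, ?_, ?_, ?_, ?_⟩
      · rintro φ ⟨k, hk, rfl⟩ w hw
        exact hw _ (by omega)
      · rintro φ ⟨k, hk, rfl⟩ w hw
        show w _ + w _ = 0
        rw [hw _ (by omega), hw _ (by omega), add_zero]
      · apply hgen
        rintro n φ ⟨k, hk, rfl⟩
        show e (2 * n) (2 * k + 1) = 0
        rw [e_apply, if_neg (by omega)]
      · apply hgen
        intro n φ hφ
        exact hc n N φ hφ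
      · rintro w ⟨h1, h2⟩ j hj
        rcases Nat.even_or_odd' j with ⟨i, rfl | rfl⟩
        · exact zmod_eq_of_add _ _ (h2 _ ⟨i, by omega, rfl⟩)
            (h1 (co (2 * i + 1)) ⟨i, by omega, rfl⟩)
        · exact h1 _ ⟨i, by omega, rfl⟩
    · intro N
      refine ⟨2 * N, {φ | ∃ k < N, φ = co (2 * k)},
        {φ | ∃ k < N, φ = co2 (2 * k) (2 * k + 1)}, ?_, ?_, ?_, ?_, ?_⟩
      · rintro φ ⟨k, hk, rfl⟩ w hw
        exact hw _ (by omega)
      · rintro φ ⟨k, hk, rfl⟩ w hw
        show w _ + w _ = 0
        rw [hw _ (by omega), hw _ (by omega), add_zero]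
      · apply hgen
        rintro n φ ⟨k, hk, rfl⟩
        show e (2 * n + 1) (2 * k) = 0
        rw [e_apply, if_neg (by omega)]
      · apply hgen
        intro n φ hφ
        exact hc n N φ hφ
      · rintro w ⟨h1, h2⟩ j hj
        rcases Nat.even_or_odd' j with ⟨i, rfl | rfl⟩
        · exact h1 _ ⟨i, by omega, rfl⟩
        · have h3 := h2 _ ⟨i, by omega, rfl⟩
          have h4 := h1 (co (2 * i)) ⟨i, by omega, rfl⟩
          refine zmod_eq_of_add _ _ ?_ h4
          have : w (2 * i) + w (2 * i + 1) = 0 := h3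
          rw [add_comm]
          exact this
  · refine sup_le_sup_left (iSup_le fun n => ?_) _
    exact le_iSup (fun n => f (ga n)) (n + 1)

/-- `p` is completely join-irreducible. -/
def CompletelyJoinIrreducible {K : Type*} [CompleteLattice K] (p : K) : Prop :=
  ∀ S : Set K, p = sSup S → p ∈ S

/-- `K` is algebraic: every element is a join of compact elements, where `c` is compact if
`c ≤ ⨆ S` implies `c ≤ ⨆ S₀` for a finite `S₀ ⊆ S`. -/
def Algebraic (K : Type*) [CompleteLattice K] : Prop :=
  ∀ x : K, ∃ C : Set K, (∀ c ∈ C, ∀ S : Set K, c ≤ sSup S →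
    ∃ S₀ ⊆ S, S₀.Finite ∧ c ≤ sSup S₀) ∧ x = sSup C

/-- `K` is spatial: every element is a join of completely join-irreducible elements. -/
def Spatial (K : Type*) [CompleteLattice K] : Prop :=
  ∀ x : K, ∃ C : Set K, (∀ p ∈ C, CompletelyJoinIrreducible p) ∧ x = sSup C

/-- `L` embeds, within its quasivariety, into the lattice `K`. -/
def EmbedsWithinQuasivariety (L : Type*) [Lattice L] (K : Type*) [Lattice K] : Prop :=
  InQuasivariety L K ∧ ∃ f : LatticeHom L K, Function.Injective f

/-- There is a modular lattice `L` that does not embed, within its quasivariety, into any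
complete lattice; in particular it does not embed, within its quasivariety, into any algebraic
lattice (a), into any spatial lattice (b), or into any algebraic spatial lattice (c). -/
theorem result : ∃ (L : Type) (_ : Lattice L), IsModularLattice L ∧
    (∀ (K : Type u) [CompleteLattice K], ¬ EmbedsWithinQuasivariety L K) ∧
    (∀ (K : Type u) [CompleteLattice K], Algebraic K → ¬ EmbedsWithinQuasivariety L K) ∧
    (∀ (K : Type u) [CompleteLattice K], Spatial K → ¬ EmbedsWithinQuasivariety L K) ∧
    (∀ (K : Type u) [CompleteLattice K], Algebraic K → Spatial K →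
      ¬ EmbedsWithinQuasivariety L K) := by
  have key : ∀ (K : Type u) [CompleteLattice K], ¬ EmbedsWithinQuasivariety L K := by
    intro K _ h
    obtain ⟨h1, f, hf⟩ := h
    exact no_embedding h1 f hf
  exact ⟨L, inferInstance, inferInstance, key, fun K _ _ => key K, fun K _ _ => key K,
    fun K _ _ _ => key K⟩

end Pool.Agent.Results.MP_019b27_al.NoCompletion
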